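import Mathlib

/-! Averages of periodic functions, counting in progressions, primes in dyadic blocks. -/

namespace Pool.Agent.Lib.MP_2f350e_nt

open Finset

lemma crt_sum (f g : ℕ → ℂ) (q q' : ℕ) (hq : q ≠ 0) (hq' : q' ≠ 0) (hc : q.Coprime q')
    (hf : Function.Periodic f q) (hg : Function.Periodic g q') :
    ∑ n ∈ range (q * q'), f n * g n = (∑ n ∈ range q, f n) * ∑ n ∈ range q', g n := by
  rw [sum_mul_sum, ← sum_product']
  refine sum_nbij' (fun n => (n % q, n % q'))
    (fun x => (Nat.chineseRemainder hc x.1 x.2 : ℕ)) ?_ ?_ ?_ ?_ ?_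
  · intro n _
    simp only [mem_product, mem_range]
    exact ⟨Nat.mod_lt _ (Nat.pos_of_ne_zero hq), Nat.mod_lt _ (Nat.pos_of_ne_zero hq')⟩
  · intro x _
    exact mem_range.2 (Nat.chineseRemainder_lt_mul hc _ _ hq hq')
  · intro n hn
    have h1 := (Nat.chineseRemainder hc (n % q) (n % q')).2
    have h2 : (Nat.chineseRemainder hc (n % q) (n % q') : ℕ) ≡ n [MOD q * q'] :=
      (Nat.modEq_and_modEq_iff_modEq_mul hc).1
        ⟨h1.1.trans (Nat.mod_modEq _ _), h1.2.trans (Nat.mod_modEq _ _)⟩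
    exact Nat.ModEq.eq_of_lt_of_lt h2 (Nat.chineseRemainder_lt_mul hc _ _ hq hq') (mem_range.1 hn)
  · intro x hx
    simp only [mem_product, mem_range] at hx
    have h1 := (Nat.chineseRemainder hc x.1 x.2).2
    refine Prod.ext ?_ ?_
    · have := h1.1
      unfold Nat.ModEq at this
      simp only [this, Nat.mod_eq_of_lt hx.1]
    · have := h1.2
      unfold Nat.ModEq at this
      simp only [this, Nat.mod_eq_of_lt hx.2]
  · intro n _
    simp only [hf.map_mod_nat, hg.map_mod_nat]

lemma per_mul (f : ℕ → ℂ) (q m : ℕ) (hf : Function.Periodic f q) :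
    Function.Periodic f (q * m) := by
  have := hf.nat_mul m
  simpa [mul_comm] using this

lemma prod_sum (f : ℕ → ℂ) (M : ℕ) (hM : M ≠ 0) (hf : Function.Periodic f M)
    (ψ : ℕ → ℕ → ℂ) (hψ : ∀ p, Function.Periodic (ψ p) (p * p)) (S : Finset ℕ)
    (hS : ∀ p ∈ S, p.Prime ∧ M.Coprime p) :
    Function.Periodic (fun n => f n * ∏ p ∈ S, ψ p n) (M * ∏ p ∈ S, (p * p)) ∧
    ∑ n ∈ range (M * ∏ p ∈ S, (p * p)), f n * ∏ p ∈ S, ψ p n
      = (∑ n ∈ range M, f n) * ∏ p ∈ S, ∑ n ∈ range (p * p), ψ p n := by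
  classical
  induction S using Finset.induction_on with
  | empty => simpa using hf
  | insert p S hp ih =>
    have ih' := ih (fun x hx => hS x (mem_insert_of_mem hx))
    have hpp := hS p (mem_insert_self _ _)
    have e1 : M * ∏ x ∈ insert p S, (x * x) = (M * ∏ x ∈ S, (x * x)) * (p * p) := by
      rw [prod_insert hp]; ring
    have e2 : ∀ n, f n * ∏ x ∈ insert p S, ψ x n = (f n * ∏ x ∈ S, ψ x n) * ψ p n := by
      intro n; rw [prod_insert hp]; ring
    have hco : (M * ∏ x ∈ S, (x * x)).Coprime (p * p) := by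
      have : (M * ∏ x ∈ S, (x * x)).Coprime p := by
        refine Nat.Coprime.mul_left hpp.2 (Nat.Coprime.prod_left ?_)
        intro x hx
        have hx' := hS x (mem_insert_of_mem hx)
        have : x.Coprime p := (Nat.coprime_primes hx'.1 hpp.1).2 (fun h => hp (h ▸ hx))
        exact Nat.Coprime.mul_left this this
      exact Nat.Coprime.mul_right this this
    have hne : M * ∏ x ∈ S, (x * x) ≠ 0 := by
      refine mul_ne_zero hM (prod_ne_zero_iff.2 ?_)
      intro x hx
      have := (hS x (mem_insert_of_mem hx)).1.ne_zero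
      exact mul_ne_zero this this
    rw [e1]
    simp only [e2]
    refine ⟨?_, ?_⟩
    · intro n
      have h1 := per_mul _ _ (p * p) ih'.1 n
      have h2 := per_mul _ _ (M * ∏ x ∈ S, (x * x)) (hψ p) n
      simp only at h1 ⊢
      rw [h1, mul_comm (M * ∏ x ∈ S, (x * x)) (p * p), h2]
    · rw [crt_sum _ _ _ _ hne (mul_ne_zero hpp.1.ne_zero hpp.1.ne_zero) hco ih'.1 (hψ p), ih'.2,
        prod_insert hp]
      ring

lemma per_bound (f : ℕ → ℂ) (q : ℕ) (hq : q ≠ 0) (hf : Function.Periodic f q)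
    (h1 : ∀ n, ‖f n‖ ≤ 1) (c : ℝ) (hc : 0 ≤ c) (hs : ‖∑ n ∈ range q, f n‖ ≤ q * c) (N : ℕ) :
    ‖∑ n ∈ range N, f n‖ ≤ N * c + q := by
  have key : ∀ m, ∑ n ∈ range (q * m), f n = m * ∑ n ∈ range q, f n := by
    intro m
    induction m with
    | zero => simp
    | succ m ih =>
      rw [mul_add, mul_one, sum_range_add, ih]
      have : ∀ x, f (q * m + x) = f x := fun x => by
        rw [add_comm]; exact per_mul f q m hf x
      simp only [this]
      push_cast; ring
  have e : N = q * (N / q) + N % q := (Nat.div_add_mod N q).symm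
  have h2 : ‖∑ x ∈ range (N % q), f (q * (N / q) + x)‖ ≤ q := by
    refine (norm_sum_le _ _).trans ?_
    refine (sum_le_sum (fun x _ => h1 _)).trans ?_
    simp only [sum_const, card_range, nsmul_eq_mul, mul_one]
    exact_mod_cast (Nat.mod_lt _ (Nat.pos_of_ne_zero hq)).le
  have h3 : ((N / q : ℕ) : ℝ) * q ≤ N := by exact_mod_cast Nat.div_mul_le_self N q
  calc ‖∑ n ∈ range N, f n‖
      = ‖((N / q : ℕ) : ℂ) * ∑ n ∈ range q, f n
          + ∑ x ∈ range (N % q), f (q * (N / q) + x)‖ := by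
        conv_lhs => rw [e, sum_range_add, key]
    _ ≤ ((N / q : ℕ) : ℝ) * (q * c) + q := by
        refine (norm_add_le _ _).trans (add_le_add ?_ h2)
        rw [norm_mul, Complex.norm_natCast]
        exact mul_le_mul_of_nonneg_left hs (Nat.cast_nonneg _)
    _ ≤ N * c + q := by nlinarith

lemma count_lin (a b d N : ℕ) (hd : d ≠ 0) (hc : d.Coprime a) :
    ((((range N).filter fun n => d ∣ a * n + b).card : ℕ) : ℝ) ≤ N / d + 1 := by
  have h1 : ((range N).filter fun n => d ∣ a * n + b).card ≤ (range (N / d + 1)).card := by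
    refine card_le_card_of_injOn (fun n => n / d) ?_ ?_
    · intro n hn
      simp only [coe_filter, mem_range, Set.mem_setOf_eq] at hn
      simp only [coe_range, Set.mem_Iio]
      exact Nat.lt_succ_of_le (Nat.div_le_div_right hn.1.le)
    · intro n hn m hm hnm
      simp only [coe_filter, mem_range, Set.mem_setOf_eq] at hn hm hnm
      have h2 : a * n + b ≡ a * m + b [MOD d] :=
        ((Nat.modEq_zero_iff_dvd).2 hn.2).trans ((Nat.modEq_zero_iff_dvd).2 hm.2).symm
      have h3 : n ≡ m [MOD d] :=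
        Nat.ModEq.cancel_left_of_coprime hc (Nat.ModEq.add_right_cancel' b h2)
      rw [← Nat.div_add_mod n d, ← Nat.div_add_mod m d, hnm, h3]
  rw [card_range] at h1
  have h2 : ((N / d : ℕ) : ℝ) ≤ N / d := Nat.cast_div_le
  have h3 : ((((range N).filter fun n => d ∣ a * n + b).card : ℕ) : ℝ) ≤ ((N / d : ℕ) : ℝ) + 1 := by
    exact_mod_cast h1
  linarith

lemma exists_lin (a b d : ℕ) (hd : d ≠ 0) (hc : a.Coprime d) : ∃ n < d, d ∣ a * n + b := by
  haveI : NeZero d := ⟨hd⟩
  refine ⟨(-(b : ZMod d) * (a : ZMod d)⁻¹).val, ZMod.val_lt _, ?_⟩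
  rw [← ZMod.natCast_eq_zero_iff]
  push_cast
  rw [ZMod.natCast_zmod_val]
  have := ZMod.coe_mul_inv_eq_one a hc
  linear_combination (-(b : ZMod d)) * this

lemma many_primes (r P0 : ℕ) : ∃ P, P0 ≤ P ∧ r ≤ ((Ioc P (2 * P)).filter Nat.Prime).card := by
  by_contra hcon
  push_neg at hcon
  apply not_summable_one_div_on_primes
  set u : ℕ → ℝ := Set.indicator {p | p.Prime} fun n : ℕ => (1 : ℝ) / n with hu
  have u0 : ∀ n, 0 ≤ u n := fun n => Set.indicator_nonneg (fun _ _ => by positivity) n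
  set P1 := P0 + 1 with hP1
  have step : ∀ P, P1 ≤ P → ∑ n ∈ Ioc P (2 * P), u n ≤ r / P := by
    intro P hP
    have hP' : (0 : ℝ) < P := by exact_mod_cast (by omega : 0 < P)
    have h1 : ∑ n ∈ Ioc P (2 * P), u n ≤ ∑ n ∈ (Ioc P (2 * P)).filter Nat.Prime, (1 : ℝ) / P := by
      rw [sum_filter]
      refine sum_le_sum (fun n hn => ?_)
      by_cases h : n.Prime
      · rw [if_pos h, hu, Set.indicator_of_mem (by exact h)]
        refine one_div_le_one_div_of_le hP' ?_
        exact_mod_cast (mem_Ioc.1 hn).1.le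
      · rw [if_neg h, hu, Set.indicator_of_notMem (by exact h)]
    refine h1.trans ?_
    rw [sum_const, nsmul_eq_mul, mul_one_div]
    refine div_le_div_of_nonneg_right ?_ hP'.le
    exact_mod_cast (hcon P (by omega)).le
  have ind : ∀ j, ∑ n ∈ range (2 ^ j * P1 + 1), u n
      ≤ ∑ n ∈ range (P1 + 1), u n + 2 * r - 2 * r / 2 ^ j := by
    intro j
    induction j with
    | zero => simp
    | succ j ih =>
      have hle : P1 ≤ 2 ^ j * P1 := Nat.le_mul_of_pos_left _ (by positivity)
      have e : ∑ n ∈ range (2 ^ (j + 1) * P1 + 1), u n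
          = ∑ n ∈ range (2 ^ j * P1 + 1), u n + ∑ n ∈ Ioc (2 ^ j * P1) (2 * (2 ^ j * P1)), u n := by
        rw [← sum_union]
        · refine sum_congr ?_ (fun _ _ => rfl)
          ext n
          simp only [mem_range, mem_union, mem_Ioc, pow_succ]
          have : 2 ^ j * 2 * P1 = 2 * (2 ^ j * P1) := by ring
          omega
        · rw [disjoint_left]
          intro n h1 h2
          simp only [mem_range, mem_Ioc] at h1 h2
          omega
      have h2 := step _ hle
      have h3 : (r : ℝ) / ((2 ^ j * P1 : ℕ) : ℝ) ≤ r / 2 ^ j := by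
        refine div_le_div_of_nonneg_left (Nat.cast_nonneg _) (by positivity) ?_
        have : 2 ^ j ≤ 2 ^ j * P1 := Nat.le_mul_of_pos_right _ (by omega)
        exact_mod_cast this
      have h4 : (2 : ℝ) * r / 2 ^ (j + 1) = r / 2 ^ j := by
        rw [pow_succ]; field_simp
      have h5 : (2 : ℝ) * r / 2 ^ j = 2 * (r / 2 ^ j) := by ring
      rw [e, h4]
      linarith
  refine summable_of_sum_range_le (c := ∑ n ∈ range (P1 + 1), u n + 2 * r) u0 (fun N => ?_)
  have h1 : N ≤ 2 ^ N * P1 + 1 := by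
    have h2 : N < 2 ^ N := Nat.lt_two_pow_self
    have h3 : 2 ^ N ≤ 2 ^ N * P1 := Nat.le_mul_of_pos_right _ (by omega)
    omega
  have h2 : ∑ n ∈ range N, u n ≤ ∑ n ∈ range (2 ^ N * P1 + 1), u n :=
    sum_le_sum_of_subset_of_nonneg (range_mono h1) (fun n _ _ => u0 n)
  have h3 := ind N
  have h4 : (0 : ℝ) ≤ 2 * r / 2 ^ N := by positivity
  linarith

end Pool.Agent.Lib.MP_2f350e_nt
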