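import Pool.Agent.Lib.MP_2f350e_nt.Avg

/-! Cancellation in products of unit weights over squarefree values of linear forms. -/

namespace Pool.Agent.Lib.MP_2f350e_nt

open Finset Classical

variable {ι : Type} [Fintype ι]

def sm (P e : ℕ) : Prop := ∀ p ≤ P, p.Prime → ¬ p * p ∣ e

noncomputable def GG (a b : ι → ℕ) (w : ι → ℂ) (n : ℕ) : ℂ :=
  ∏ t, if Squarefree (a t * n + b t) then w t else 1

noncomputable def HH (a b : ι → ℕ) (w : ι → ℂ) (P n : ℕ) : ℂ :=
  ∏ t, if sm P (a t * n + b t) then w t else 1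

noncomputable def psi (a b : ι → ℕ) (w : ι → ℂ) (P m p n : ℕ) : ℂ :=
  ∏ t, if sm P (a t * m + b t) ∧ p * p ∣ a t * n + b t then (w t)⁻¹ else 1

lemma norm_prod_ite (c : ι → Prop) [DecidablePred c] (v : ι → ℂ) (hv : ∀ t, ‖v t‖ = 1) :
    ‖∏ t, if c t then v t else 1‖ = 1 := by
  rw [norm_prod]
  refine prod_eq_one (fun t _ => ?_)
  split_ifs
  · exact hv t
  · simp

lemma norm_psi (a b : ι → ℕ) (w : ι → ℂ) (hw : ∀ t, ‖w t‖ = 1) (P m p n : ℕ) :
    ‖psi a b w P m p n‖ = 1 := by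
  unfold psi
  exact norm_prod_ite (fun t => sm P (a t * m + b t) ∧ p * p ∣ a t * n + b t) _
    (fun t => by rw [norm_inv, hw t, inv_one])

lemma norm_HH (a b : ι → ℕ) (w : ι → ℂ) (hw : ∀ t, ‖w t‖ = 1) (P n : ℕ) :
    ‖HH a b w P n‖ = 1 := by
  unfold HH
  exact norm_prod_ite (fun t => sm P (a t * n + b t)) _ hw

lemma norm_GG (a b : ι → ℕ) (w : ι → ℂ) (hw : ∀ t, ‖w t‖ = 1) (n : ℕ) :
    ‖GG a b w n‖ = 1 := by
  unfold GG
  exact norm_prod_ite (fun t => Squarefree (a t * n + b t)) _ hw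

lemma sm_mod (P a b n : ℕ) :
    sm P (a * (n % (P.factorial * P.factorial)) + b) ↔ sm P (a * n + b) := by
  unfold sm
  refine forall_congr' fun p => forall_congr' fun hp => forall_congr' fun hpp => not_congr ?_
  have h1 : p ∣ P.factorial := Nat.dvd_factorial hpp.pos hp
  have h2 : n % (P.factorial * P.factorial) ≡ n [MOD p * p] :=
    (Nat.mod_modEq _ _).of_dvd (mul_dvd_mul h1 h1)
  have h3 : a * (n % (P.factorial * P.factorial)) + b ≡ a * n + b [MOD p * p] :=
    (h2.mul_left a).add_right b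
  exact h3.dvd_iff dvd_rfl

lemma psi_per (a b : ι → ℕ) (w : ι → ℂ) (P m p : ℕ) :
    Function.Periodic (psi a b w P m p) (p * p) := by
  intro n
  unfold psi
  refine prod_congr rfl (fun t _ => ?_)
  have : p * p ∣ a t * (n + p * p) + b t ↔ p * p ∣ a t * n + b t := by
    have e : a t * (n + p * p) + b t = (a t * n + b t) + (p * p) * a t := by ring
    rw [e]
    exact (Nat.dvd_add_iff_left (dvd_mul_right _ _)).symm
  simp only [this]

lemma GG_eq (a b : ι → ℕ) (w : ι → ℂ) (hw : ∀ t, ‖w t‖ = 1) (P y n : ℕ)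
    (h1 : ∀ t p, p.Prime → y < p → ¬ p * p ∣ a t * n + b t)
    (h2 : ∀ t, ∀ p ∈ (Ioc P y).filter Nat.Prime, ∀ q ∈ (Ioc P y).filter Nat.Prime, p ≠ q →
      ¬ (p * p ∣ a t * n + b t ∧ q * q ∣ a t * n + b t)) :
    GG a b w n = HH a b w P n * ∏ p ∈ (Ioc P y).filter Nat.Prime, psi a b w P n p n := by
  unfold GG HH psi
  rw [prod_comm, ← prod_mul_distrib]
  refine prod_congr rfl (fun t _ => ?_)
  have hw0 : w t ≠ 0 := by
    intro h; have := hw t; rw [h] at this; simp at this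
  by_cases hs : sm P (a t * n + b t)
  · by_cases hx : ∃ p ∈ (Ioc P y).filter Nat.Prime, p * p ∣ a t * n + b t
    · obtain ⟨p, hp, hd⟩ := hx
      have hns : ¬ Squarefree (a t * n + b t) := fun h =>
        (Nat.squarefree_iff_prime_squarefree.1 h) p (mem_filter.1 hp).2 hd
      rw [if_neg hns, if_pos hs, prod_eq_single p]
      · rw [if_pos ⟨hs, hd⟩, mul_inv_cancel₀ hw0]
      · intro q hq hqp
        rw [if_neg]
        exact fun h => h2 t q hq p hp hqp ⟨h.2, hd⟩
      · intro h; exact absurd hp h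
    · have hsq : Squarefree (a t * n + b t) := by
        refine Nat.squarefree_iff_prime_squarefree.2 (fun p hp hd => ?_)
        by_cases c1 : p ≤ P
        · exact hs p c1 hp hd
        · by_cases c2 : y < p
          · exact h1 t p hp c2 hd
          · exact hx ⟨p, mem_filter.2 ⟨mem_Ioc.2 ⟨by omega, by omega⟩, hp⟩, hd⟩
      rw [if_pos hsq, if_pos hs, prod_eq_one, mul_one]
      intro p hp
      rw [if_neg]
      exact fun h => hx ⟨p, hp, h.2⟩
  · have hns : ¬ Squarefree (a t * n + b t) := fun h =>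
      hs (fun p _ hp => (Nat.squarefree_iff_prime_squarefree.1 h) p hp)
    rw [if_neg hns, if_neg hs, prod_eq_one, mul_one]
    intro p _
    rw [if_neg]
    exact fun h => hs h.1

lemma psi_bound (a b : ι → ℕ) (w : ι → ℂ) (hw : ∀ t, ‖w t‖ = 1) (α : ℂ) (hα : α ≠ 1)
    (T : Finset ι) (hT : ∀ t ∈ T, w t = α) (P m p : ℕ) (hp : p.Prime) (hPp : P < p)
    (ha : ∀ t, 0 < a t ∧ a t ≤ P)
    (hsep : ∀ u ∈ T, ∀ t, t ≠ u → (a t * b u : ℤ) - a u * b t ≠ 0 ∧
      |(a t * b u : ℤ) - a u * b t| ≤ P * P)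
    (h3 : 3 * Fintype.card ι ≤ P * P) :
    ‖∑ n ∈ range (p * p), psi a b w P m p n‖
      ≤ p * p - (T.filter fun t => sm P (a t * m + b t)).card * (2 - ‖1 + α⁻¹‖) := by
  have hpp : p * p ≠ 0 := mul_ne_zero hp.ne_zero hp.ne_zero
  have hco : ∀ t, (a t).Coprime (p * p) := fun t => by
    have : (a t).Coprime p :=
      (Nat.coprime_of_lt_prime (ha t).1.ne' (lt_of_le_of_lt (ha t).2 hPp) hp).symm
    exact Nat.Coprime.mul_right this this
  have hlt : P * P < p * p := Nat.mul_self_lt_mul_self hPp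
  have two : ∀ u ∈ T, ∀ t, t ≠ u → ∀ n, p * p ∣ a u * n + b u → ¬ p * p ∣ a t * n + b t := by
    intro u hu t htu n d1 d2
    obtain ⟨s1, s2⟩ := hsep u hu t htu
    have e1 : ((p * p : ℕ) : ℤ) ∣ (a u * n + b u : ℕ) := Int.natCast_dvd_natCast.2 d1
    have e2 : ((p * p : ℕ) : ℤ) ∣ (a t * n + b t : ℕ) := Int.natCast_dvd_natCast.2 d2
    have e3 : ((p * p : ℕ) : ℤ) ∣ (a t * b u : ℤ) - a u * b t := by
      have := (e1.mul_left (a t)).sub (e2.mul_left (a u))
      have e : (a t : ℤ) * ((a u * n + b u : ℕ) : ℤ) - (a u : ℤ) * ((a t * n + b t : ℕ) : ℤ)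
          = (a t * b u : ℤ) - a u * b t := by push_cast; ring
      rwa [e] at this
    have e4 := Int.le_of_dvd (abs_pos.2 s1) ((dvd_abs _ _).2 e3)
    have e5 : ((P * P : ℕ) : ℤ) < (p * p : ℕ) := by exact_mod_cast hlt
    push_cast at e4 e5
    linarith
  choose nn hn1 hn2 using fun t => exists_lin (a t) (b t) (p * p) hpp (hco t)
  set T' := T.filter fun t => sm P (a t * m + b t) with hT'
  set A := T'.image nn with hA
  have cA : A.card = T'.card := by
    refine card_image_of_injOn (fun u hu t ht h => ?_)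
    by_contra hne
    exact two u (mem_filter.1 hu).1 t (Ne.symm hne) (nn u) (hn2 u) (h ▸ hn2 t)
  have vA : ∀ n ∈ A, psi a b w P m p n = α⁻¹ := by
    intro n hn
    obtain ⟨u, hu, rfl⟩ := mem_image.1 hn
    unfold psi
    rw [prod_eq_single u]
    · rw [if_pos ⟨(mem_filter.1 hu).2, hn2 u⟩, hT u (mem_filter.1 hu).1]
    · intro t _ htu
      rw [if_neg]
      exact fun h => two u (mem_filter.1 hu).1 t htu _ (hn2 u) h.2
    · intro h; exact absurd (mem_univ u) h
  set Bad := (range (p * p)).filter fun n => ∃ t, p * p ∣ a t * n + b t with hBad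
  have cBad : Bad.card ≤ 2 * Fintype.card ι := by
    have s1 : Bad ⊆ univ.biUnion fun t => (range (p * p)).filter fun n => p * p ∣ a t * n + b t := by
      intro n hn
      obtain ⟨h1, t, h2⟩ := mem_filter.1 hn
      exact mem_biUnion.2 ⟨t, mem_univ _, mem_filter.2 ⟨h1, h2⟩⟩
    refine (card_le_card s1).trans (card_biUnion_le.trans ?_)
    have s2 : ∀ t, ((range (p * p)).filter fun n => p * p ∣ a t * n + b t).card ≤ 2 := by
      intro t
      have := count_lin (a t) (b t) (p * p) (p * p) hpp (hco t).symm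
      rw [div_self (by exact_mod_cast hpp)] at this
      have h2 : ((((range (p * p)).filter fun n => p * p ∣ a t * n + b t).card : ℕ) : ℝ) ≤ (2 : ℕ) := by
        push_cast; linarith
      exact_mod_cast h2
    refine (sum_le_sum (fun t _ => s2 t)).trans ?_
    simp [mul_comm]
  have cT : T'.card ≤ Fintype.card ι := card_le_univ _
  have cGood : T'.card ≤ (range (p * p) \ Bad).card := by
    have c1 : (range (p * p) \ Bad).card + Bad.card = (range (p * p)).card :=
      card_sdiff_add_card_eq_card (filter_subset _ _)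
    rw [card_range] at c1
    omega
  obtain ⟨B, hB, cB⟩ := exists_subset_card_eq cGood
  have vB : ∀ n ∈ B, psi a b w P m p n = 1 := by
    intro n hn
    have := mem_sdiff.1 (hB hn)
    unfold psi
    refine prod_eq_one (fun t _ => ?_)
    rw [if_neg]
    exact fun h => this.2 (mem_filter.2 ⟨this.1, t, h.2⟩)
  have dAB : Disjoint A B := by
    rw [disjoint_left]
    intro n h1 h2
    have := (vA n h1).symm.trans (vB n h2)
    exact hα (inv_eq_one.1 this)
  have sAB : A ∪ B ⊆ range (p * p) := by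
    refine union_subset ?_ (hB.trans sdiff_subset)
    intro n hn
    obtain ⟨u, _, rfl⟩ := mem_image.1 hn
    exact mem_range.2 (hn1 u)
  rw [← sum_sdiff sAB, sum_union dAB, sum_congr rfl vA, sum_congr rfl vB]
  have n1 : ‖∑ n ∈ range (p * p) \ (A ∪ B), psi a b w P m p n‖ ≤ (p * p : ℝ) - 2 * T'.card := by
    refine (norm_sum_le _ _).trans ?_
    have : ∀ n, ‖psi a b w P m p n‖ = 1 := fun n => norm_psi a b w hw P m p n
    simp only [this, sum_const, nsmul_eq_mul, mul_one]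
    have c1 := card_sdiff_add_card_eq_card sAB
    rw [card_union_of_disjoint dAB, cA, cB, card_range] at c1
    have c2 : (((range (p * p) \ (A ∪ B)).card : ℕ) : ℝ) + (T'.card + T'.card) = p * p := by
      exact_mod_cast c1
    linarith
  have n2 : ‖∑ n ∈ A, α⁻¹ + ∑ n ∈ B, (1 : ℂ)‖ = T'.card * ‖1 + α⁻¹‖ := by
    simp only [sum_const, nsmul_eq_mul, cA, cB]
    rw [← mul_add, norm_mul, Complex.norm_natCast, add_comm]
  refine (norm_add_le _ _).trans ?_
  rw [n2]
  linarith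

lemma hat_bound (a b : ι → ℕ) (w : ι → ℂ) (hw : ∀ t, ‖w t‖ = 1) (P y r : ℕ) (hy : 2 * P ≤ y)
    (θ : ℝ) (h0 : 0 ≤ θ) (h1 : θ ≤ 1) (hr : r ≤ ((Ioc P (2 * P)).filter Nat.Prime).card)
    (hb : ∀ m p, p.Prime → P < p → p ≤ 2 * P →
      ‖∑ n ∈ range (p * p), psi a b w P m p n‖ ≤ p * p * θ) :
    ∃ C : ℝ, ∀ N, ‖∑ n ∈ range N,
      HH a b w P n * ∏ p ∈ (Ioc P y).filter Nat.Prime, psi a b w P n p n‖ ≤ N * θ ^ r + C := by
  set S := (Ioc P y).filter Nat.Prime with hS
  set M := P.factorial * P.factorial with hM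
  have hM0 : M ≠ 0 := mul_ne_zero (Nat.factorial_ne_zero _) (Nat.factorial_ne_zero _)
  have hMR : (0 : ℝ) < M := by exact_mod_cast Nat.pos_of_ne_zero hM0
  set q := M * ∏ p ∈ S, (p * p) with hq
  have hSp : ∀ p ∈ S, p.Prime ∧ M.Coprime p := by
    intro p hp
    obtain ⟨hp1, hp2⟩ := mem_filter.1 hp
    have : P.factorial.Coprime p := by
      refine ((Nat.Prime.coprime_iff_not_dvd hp2).2 ?_).symm
      rw [hp2.dvd_factorial]
      have := (mem_Ioc.1 hp1).1
      omega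
    exact ⟨hp2, Nat.Coprime.mul_left this this⟩
  have hq0 : q ≠ 0 := by
    refine mul_ne_zero hM0 (prod_ne_zero_iff.2 ?_)
    intro x hx
    have := (hSp x hx).1.ne_zero
    exact mul_ne_zero this this
  refine ⟨M * q, fun N => ?_⟩
  have split : ∀ n, HH a b w P n * ∏ p ∈ S, psi a b w P n p n
      = ∑ m ∈ range M, (if n % M = m then HH a b w P m else 0) * ∏ p ∈ S, psi a b w P m p n := by
    intro n
    rw [sum_eq_single (n % M)]
    · rw [if_pos rfl]
      unfold HH psi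
      simp only [hM, sm_mod]
    · intro m _ hm
      rw [if_neg (Ne.symm hm), zero_mul]
    · intro h
      exact absurd (mem_range.2 (Nat.mod_lt _ (Nat.pos_of_ne_zero hM0))) h
  simp only [split]
  rw [sum_comm]
  refine (norm_sum_le _ _).trans ?_
  have each : ∀ m ∈ range M, ‖∑ n ∈ range N,
      (if n % M = m then HH a b w P m else 0) * ∏ p ∈ S, psi a b w P m p n‖
        ≤ N * (θ ^ r / M) + q := by
    intro m hm
    have hper : Function.Periodic (fun n => if n % M = m then HH a b w P m else 0) M := by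
      intro n; simp only [Nat.add_mod_right]
    obtain ⟨p1, p2⟩ := prod_sum _ M hM0 hper (psi a b w P m) (psi_per a b w P m) S hSp
    refine per_bound _ q hq0 p1 ?_ _ (by positivity) ?_ N
    · intro n
      rw [norm_mul, norm_prod, prod_eq_one (fun p _ => norm_psi a b w hw P m p n), mul_one]
      split_ifs
      · exact (norm_HH a b w hw P m).le
      · simp
    · rw [p2, sum_eq_single m]
      · rw [if_pos (Nat.mod_eq_of_lt (mem_range.1 hm)), norm_mul, norm_HH a b w hw, one_mul,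
          norm_prod]
        have b1 : ∀ p ∈ S, ‖∑ n ∈ range (p * p), psi a b w P m p n‖
            ≤ ((p * p : ℕ) : ℝ) * (if p ≤ 2 * P then θ else 1) := by
          intro p hp
          obtain ⟨hp1, hp2⟩ := mem_filter.1 hp
          split_ifs with h
          · push_cast; exact hb m p hp2 (mem_Ioc.1 hp1).1 h
          · refine (norm_sum_le _ _).trans ?_
            simp only [norm_psi a b w hw, sum_const, card_range, nsmul_eq_mul, le_refl]
        refine (prod_le_prod (fun _ _ => norm_nonneg _) b1).trans ?_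
        rw [prod_mul_distrib, prod_ite, prod_const, prod_const_one, mul_one]
        have c1 : r ≤ (S.filter fun p => p ≤ 2 * P).card := by
          refine hr.trans (card_le_card ?_)
          intro p hp
          obtain ⟨hp1, hp2⟩ := mem_filter.1 hp
          have := mem_Ioc.1 hp1
          exact mem_filter.2 ⟨mem_filter.2 ⟨mem_Ioc.2 ⟨this.1, by omega⟩, hp2⟩, this.2⟩
        have c2 : θ ^ (S.filter fun p => p ≤ 2 * P).card ≤ θ ^ r := pow_le_pow_of_le_one h0 h1 c1
        have c3 : (q : ℝ) * (θ ^ r / M) = (∏ p ∈ S, ((p * p : ℕ) : ℝ)) * θ ^ r := by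
          rw [hq]; push_cast; field_simp
        rw [c3]
        exact mul_le_mul_of_nonneg_left c2 (prod_nonneg (fun _ _ => Nat.cast_nonneg _))
      · intro n hn hnm
        rw [if_neg]
        rwa [Nat.mod_eq_of_lt (mem_range.1 hn)]
      · intro h; exact absurd hm h
  refine (sum_le_sum each).trans ?_
  simp only [sum_const, card_range, nsmul_eq_mul]
  have : (M : ℝ) * (N * (θ ^ r / M) + q) = N * θ ^ r + M * q := by field_simp
  rw [this]

lemma bad1 (a b A B y N : ℕ) (ha : 0 < a) (hay : a ≤ y) (haA : a ≤ A) (hb : 0 < b) (hbB : b ≤ B) :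
    ((((range N).filter fun n => ∃ p, p.Prime ∧ y < p ∧ p * p ∣ a * n + b).card : ℕ) : ℝ)
      ≤ N * (2 / (y + 1)) + Nat.sqrt (A * N + B) := by
  set s := Nat.sqrt (A * N + B) with hs
  have s1 : ((range N).filter fun n => ∃ p, p.Prime ∧ y < p ∧ p * p ∣ a * n + b)
      ⊆ ((Ioo y (s + 1)).filter Nat.Prime).biUnion
        fun p => (range N).filter fun n => p * p ∣ a * n + b := by
    intro n hn
    obtain ⟨h1, p, hp, h2, h3⟩ := mem_filter.1 hn
    refine mem_biUnion.2 ⟨p, mem_filter.2 ⟨mem_Ioo.2 ⟨h2, ?_⟩, hp⟩, mem_filter.2 ⟨h1, h3⟩⟩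
    have l1 : p * p ≤ a * n + b := Nat.le_of_dvd (by omega) h3
    have l2 : a * n ≤ A * N := Nat.mul_le_mul haA (mem_range.1 h1).le
    exact Nat.lt_succ_of_le (Nat.le_sqrt.2 (by omega))
  have s2 := (card_le_card s1).trans card_biUnion_le
  have s3 : ((((range N).filter fun n => ∃ p, p.Prime ∧ y < p ∧ p * p ∣ a * n + b).card : ℕ) : ℝ)
      ≤ ∑ p ∈ (Ioo y (s + 1)).filter Nat.Prime,
        ((((range N).filter fun n => p * p ∣ a * n + b).card : ℕ) : ℝ) := by exact_mod_cast s2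
  refine s3.trans ?_
  have s4 : ∀ p ∈ (Ioo y (s + 1)).filter Nat.Prime,
      ((((range N).filter fun n => p * p ∣ a * n + b).card : ℕ) : ℝ) ≤ N * ((p : ℝ) ^ 2)⁻¹ + 1 := by
    intro p hp
    obtain ⟨h1, h2⟩ := mem_filter.1 hp
    have hc : p.Coprime a :=
      Nat.coprime_of_lt_prime ha.ne' (lt_of_le_of_lt hay (mem_Ioo.1 h1).1) h2
    have := count_lin a b (p * p) N (mul_ne_zero h2.ne_zero h2.ne_zero) (Nat.Coprime.mul_left hc hc)
    push_cast at this
    rw [div_eq_mul_inv] at this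
    rw [sq]
    exact this
  refine (sum_le_sum s4).trans ?_
  refine (sum_le_sum_of_subset_of_nonneg (filter_subset _ _) (fun _ _ _ => by positivity)).trans ?_
  rw [sum_add_distrib, ← mul_sum]
  refine add_le_add (mul_le_mul_of_nonneg_left (sum_Ioo_inv_sq_le _ _) (Nat.cast_nonneg _)) ?_
  simp only [sum_const, Nat.card_Ioo, nsmul_eq_mul, mul_one]
  exact_mod_cast (by omega : s + 1 - y - 1 ≤ s)

lemma bad2 (a b P y N : ℕ) (ha : 0 < a) (haP : a ≤ P) :
    ((((range N).filter fun n => ∃ p ∈ (Ioc P y).filter Nat.Prime,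
      ∃ q ∈ (Ioc P y).filter Nat.Prime, p ≠ q ∧ p * p ∣ a * n + b ∧ q * q ∣ a * n + b).card : ℕ) : ℝ)
      ≤ N * (2 / (P + 1)) ^ 2 + y ^ 2 := by
  set S := (Ioc P y).filter Nat.Prime with hS
  have s1 : ((range N).filter fun n => ∃ p ∈ S, ∃ q ∈ S,
      p ≠ q ∧ p * p ∣ a * n + b ∧ q * q ∣ a * n + b)
      ⊆ (S ×ˢ S).biUnion fun x => (range N).filter fun n => (x.1 * x.1) * (x.2 * x.2) ∣ a * n + b := by
    intro n hn
    obtain ⟨h1, p, hp, q, hq, hne, h2, h3⟩ := mem_filter.1 hn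
    refine mem_biUnion.2 ⟨(p, q), mem_product.2 ⟨hp, hq⟩, mem_filter.2 ⟨h1, ?_⟩⟩
    have c : p.Coprime q := (Nat.coprime_primes (mem_filter.1 hp).2 (mem_filter.1 hq).2).2 hne
    have c2 : (p * p).Coprime q := Nat.Coprime.mul_left c c
    exact Nat.Coprime.mul_dvd_of_dvd_of_dvd (Nat.Coprime.mul_right c2 c2) h2 h3
  have s2 := (card_le_card s1).trans card_biUnion_le
  have s3 : ((((range N).filter fun n => ∃ p ∈ S, ∃ q ∈ S,
      p ≠ q ∧ p * p ∣ a * n + b ∧ q * q ∣ a * n + b).card : ℕ) : ℝ)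
      ≤ ∑ x ∈ S ×ˢ S, ((((range N).filter
        fun n => (x.1 * x.1) * (x.2 * x.2) ∣ a * n + b).card : ℕ) : ℝ) := by exact_mod_cast s2
  refine s3.trans ?_
  have hc : ∀ p ∈ S, (p * p).Coprime a ∧ p * p ≠ 0 := by
    intro p hp
    obtain ⟨h1, h2⟩ := mem_filter.1 hp
    have hc : p.Coprime a :=
      Nat.coprime_of_lt_prime ha.ne' (lt_of_le_of_lt haP (mem_Ioc.1 h1).1) h2
    exact ⟨Nat.Coprime.mul_left hc hc, mul_ne_zero h2.ne_zero h2.ne_zero⟩
  have s4 : ∀ x ∈ S ×ˢ S, ((((range N).filter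
        fun n => (x.1 * x.1) * (x.2 * x.2) ∣ a * n + b).card : ℕ) : ℝ)
        ≤ N * (((x.1 : ℝ) ^ 2)⁻¹ * ((x.2 : ℝ) ^ 2)⁻¹) + 1 := by
    intro x hx
    obtain ⟨h1, h2⟩ := mem_product.1 hx
    have := count_lin a b ((x.1 * x.1) * (x.2 * x.2)) N (mul_ne_zero (hc _ h1).2 (hc _ h2).2)
      (Nat.Coprime.mul_left (hc _ h1).1 (hc _ h2).1)
    push_cast at this
    rw [div_eq_mul_inv, mul_inv] at this
    rw [sq, sq]
    exact this
  refine (sum_le_sum s4).trans ?_
  rw [sum_add_distrib, ← mul_sum, sum_product' (f := fun x y : ℕ => ((x : ℝ) ^ 2)⁻¹ * ((y : ℝ) ^ 2)⁻¹),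
    ← sum_mul_sum]
  have t1 : ∑ p ∈ S, ((p : ℝ) ^ 2)⁻¹ ≤ 2 / (P + 1) := by
    refine le_trans (sum_le_sum_of_subset_of_nonneg ?_ (fun _ _ _ => by positivity))
      (sum_Ioo_inv_sq_le P (y + 1))
    intro p hp
    have := mem_Ioc.1 (mem_filter.1 hp).1
    exact mem_Ioo.2 ⟨this.1, by omega⟩
  have t0 : 0 ≤ ∑ p ∈ S, ((p : ℝ) ^ 2)⁻¹ := sum_nonneg (fun _ _ => by positivity)
  have t2 : S.card ≤ y := by
    refine (card_filter_le _ _).trans ?_
    rw [Nat.card_Ioc]; omega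
  refine add_le_add (mul_le_mul_of_nonneg_left ?_ (Nat.cast_nonneg _)) ?_
  · rw [sq]; exact mul_le_mul t1 t1 t0 (by positivity)
  · simp only [sum_const, card_product, nsmul_eq_mul, mul_one]
    rw [sq]
    exact_mod_cast Nat.mul_le_mul t2 t2

lemma le_of_sq_le_sq_of_nonneg {x y : ℝ} (h : x ^ 2 ≤ y ^ 2) (hy : 0 ≤ y) : x ≤ y :=
  le_of_sq_le_sq h hy

lemma ev_lin (C δ : ℝ) (hδ : 0 < δ) : ∀ᶠ N : ℕ in Filter.atTop, C ≤ N * δ := by
  filter_upwards [tendsto_natCast_atTop_atTop (R := ℝ) |>.eventually_ge_atTop (C / δ)] with N hN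
  rwa [div_le_iff₀ hδ] at hN

lemma ev_sqrt (A B : ℕ) (δ : ℝ) (hδ : 0 < δ) :
    ∀ᶠ N : ℕ in Filter.atTop, (Nat.sqrt (A * N + B) : ℝ) ≤ N * δ := by
  filter_upwards [ev_lin (A + B) (δ ^ 2) (by positivity), Filter.eventually_ge_atTop 1] with N h1 h2
  have h3 : ((Nat.sqrt (A * N + B) : ℕ) : ℝ) ^ 2 ≤ A * N + B := by
    have := Nat.sqrt_le' (A * N + B)
    exact_mod_cast this
  have h4 : (1 : ℝ) ≤ N := by exact_mod_cast h2
  refine le_of_sq_le_sq_of_nonneg ?_ (by positivity)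
  have h5 := mul_le_mul_of_nonneg_left h1 (by linarith : (0 : ℝ) ≤ N)
  have h6 : (0 : ℝ) ≤ B := Nat.cast_nonneg _
  nlinarith

lemma core_ev (a b : ι → ℕ) (w : ι → ℂ) (hw : ∀ t, ‖w t‖ = 1) (P r B : ℕ)
    (ha : ∀ t, 0 < a t ∧ a t ≤ P) (hB : ∀ t, 0 < b t ∧ b t ≤ B)
    (θ : ℝ) (h0 : 0 ≤ θ) (h1 : θ ≤ 1) (hr : r ≤ ((Ioc P (2 * P)).filter Nat.Prime).card)
    (hb : ∀ m p, p.Prime → P < p → p ≤ 2 * P →
      ‖∑ n ∈ range (p * p), psi a b w P m p n‖ ≤ p * p * θ) (η : ℝ) (hη : 0 < η) :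
    ∀ᶠ N : ℕ in Filter.atTop, ‖∑ n ∈ range N, GG a b w n‖
      ≤ N * (θ ^ r + 2 * Fintype.card ι * (2 / (P + 1)) ^ 2 + η) := by
  set c : ℝ := (Fintype.card ι : ℝ) with hc
  have c0 : 0 ≤ c := Nat.cast_nonneg _
  obtain ⟨y, hy1, hy2⟩ := ((ev_lin (4 * c) (η / 3) (by positivity)).and
    (Filter.eventually_ge_atTop (2 * P))).exists
  obtain ⟨C, hC⟩ := hat_bound a b w hw P y r hy2 θ h0 h1 hr hb
  filter_upwards [ev_lin (C + 2 * c * y ^ 2) (η / 3) (by positivity),
    ev_sqrt P B (η / (6 * (c + 1))) (by positivity)] with N e1 e2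
  set S := (Ioc P y).filter Nat.Prime with hS
  set F : ℕ → ℂ := fun n => HH a b w P n * ∏ p ∈ S, psi a b w P n p n with hF
  have nF : ∀ n, ‖F n‖ = 1 := fun n => by
    simp only [hF]
    rw [norm_mul, norm_prod, prod_eq_one (fun p _ => norm_psi a b w hw P n p n), mul_one,
      norm_HH a b w hw]
  set Bd := (range N).filter fun n => GG a b w n ≠ F n with hBd
  have d1 : ‖∑ n ∈ range N, (GG a b w n - F n)‖ ≤ 2 * Bd.card := by
    have : ∑ n ∈ range N, (GG a b w n - F n) = ∑ n ∈ Bd, (GG a b w n - F n) := by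
      rw [hBd, sum_filter]
      refine sum_congr rfl (fun n _ => ?_)
      split_ifs with h
      · rfl
      · rw [not_not.1 h, sub_self]
    rw [this]
    refine (norm_sum_le _ _).trans ?_
    have h2 : ∀ n ∈ Bd, ‖GG a b w n - F n‖ ≤ 2 := fun n _ => by
      refine (norm_sub_le _ _).trans ?_
      rw [nF, norm_GG a b w hw]; norm_num
    refine (sum_le_sum h2).trans ?_
    simp [mul_comm]
  have d2 : Bd ⊆ univ.biUnion fun t =>
      ((range N).filter fun n => ∃ p, p.Prime ∧ y < p ∧ p * p ∣ a t * n + b t) ∪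
      ((range N).filter fun n => ∃ p ∈ S, ∃ q ∈ S,
        p ≠ q ∧ p * p ∣ a t * n + b t ∧ q * q ∣ a t * n + b t) := by
    intro n hn
    obtain ⟨hn1, hn2⟩ := mem_filter.1 hn
    by_contra hcon
    apply hn2
    refine GG_eq a b w hw P y n ?_ ?_
    · intro t p hp hyp hd
      exact hcon (mem_biUnion.2 ⟨t, mem_univ _,
        mem_union_left _ (mem_filter.2 ⟨hn1, p, hp, hyp, hd⟩)⟩)
    · intro t p hp q hq hne hd
      exact hcon (mem_biUnion.2 ⟨t, mem_univ _,
        mem_union_right _ (mem_filter.2 ⟨hn1, p, hp, q, hq, hne, hd⟩)⟩)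
  have d3 : (Bd.card : ℝ) ≤ c * (N * (2 / (y + 1)) + Nat.sqrt (P * N + B)
      + (N * (2 / (P + 1)) ^ 2 + y ^ 2)) := by
    have s2 := (card_le_card d2).trans card_biUnion_le
    have s3 := s2.trans (sum_le_sum (fun t _ => card_union_le _ _))
    have s4 : (Bd.card : ℝ) ≤ ∑ t : ι,
        (((((range N).filter fun n => ∃ p, p.Prime ∧ y < p ∧ p * p ∣ a t * n + b t).card : ℕ) : ℝ) +
        (((range N).filter fun n => ∃ p ∈ S, ∃ q ∈ S,
        p ≠ q ∧ p * p ∣ a t * n + b t ∧ q * q ∣ a t * n + b t).card : ℕ)) := by exact_mod_cast s3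
    refine s4.trans ((sum_le_sum (fun t _ => add_le_add
      (bad1 (a t) (b t) P B y N (ha t).1 ((ha t).2.trans (by omega)) (ha t).2 (hB t).1 (hB t).2)
      (bad2 (a t) (b t) P y N (ha t).1 (ha t).2))).trans ?_)
    simp only [sum_const, card_univ, nsmul_eq_mul, hc, le_refl]
  have d4 : ∑ n ∈ range N, GG a b w n
      = ∑ n ∈ range N, F n + ∑ n ∈ range N, (GG a b w n - F n) := by
    rw [← sum_add_distrib]; simp
  rw [d4]
  refine (norm_add_le _ _).trans ?_
  have d5 : ‖∑ n ∈ range N, F n‖ ≤ N * θ ^ r + C := hC N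
  have N0 : (0 : ℝ) ≤ N := Nat.cast_nonneg _
  have d6 : 2 * c * (2 / (y + 1)) ≤ η / 3 := by
    have y0 : (0 : ℝ) < y + 1 := by positivity
    rw [← mul_div_assoc, div_le_iff₀ y0]
    nlinarith
  have d7 : 2 * c * (Nat.sqrt (P * N + B) : ℝ) ≤ N * (η / 3) := by
    have h5 : 2 * c * (Nat.sqrt (P * N + B) : ℝ) ≤ 2 * (c + 1) * (N * (η / (6 * (c + 1)))) :=
      mul_le_mul (by linarith) e2 (Nat.cast_nonneg _) (by positivity)
    have h6 : 2 * (c + 1) * (N * (η / (6 * (c + 1)))) = N * (η / 3) := by field_simp; ring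
    linarith
  have d8 := mul_le_mul_of_nonneg_left d6 N0
  nlinarith

end Pool.Agent.Lib.MP_2f350e_nt
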