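import Pool.Agent.Lib.MP_2f350e_nt.Core

/-! Shifted correlations of twisted squarefree counts. -/

namespace Pool.Agent.Lib.MP_2f350e_nt

open Finset Classical

noncomputable def QQ (m : ℕ) : ℕ := ((Icc 1 m).filter Squarefree).card

lemma QQ_succ (m : ℕ) : QQ (m + 1) = QQ m + if Squarefree (m + 1) then 1 else 0 := by
  unfold QQ
  rw [← insert_Icc_right_eq_Icc_add_one (by omega), filter_insert]
  split_ifs with h
  · rw [card_insert_of_notMem]
    simp
  · rfl

lemma pow_QQ (α : ℂ) (m L : ℕ) :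
    α ^ QQ (m + L) = α ^ QQ m * ∏ u ∈ range L, if Squarefree (m + (u + 1)) then α else 1 := by
  induction L with
  | zero => simp
  | succ L ih =>
    rw [← add_assoc, QQ_succ, pow_add, ih, prod_range_succ, mul_assoc, add_assoc]
    split_ifs <;> simp

def aa (k k' D : ℕ) : Fin (k * D) ⊕ Fin (k' * D) → ℕ := Sum.elim (fun _ => k) (fun _ => k')
def bb (k k' D : ℕ) : Fin (k * D) ⊕ Fin (k' * D) → ℕ :=
  Sum.elim (fun u => u + 1) (fun u => u + 1)
def ww (α β : ℂ) (k k' D : ℕ) : Fin (k * D) ⊕ Fin (k' * D) → ℂ :=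
  Sum.elim (fun _ => α) (fun _ => β)

noncomputable def FF (α β : ℂ) (k k' n : ℕ) : ℂ := α ^ QQ (k * n) * β ^ QQ (k' * n)

lemma FF_add (α β : ℂ) (k k' D n : ℕ) :
    FF α β k k' (n + D) = FF α β k k' n * GG (aa k k' D) (bb k k' D) (ww α β k k' D) n := by
  unfold FF GG
  rw [mul_add, mul_add, pow_QQ, pow_QQ, Fintype.prod_sum_type, prod_range, prod_range]
  simp only [aa, bb, ww, Sum.elim_inl, Sum.elim_inr]
  ring

lemma surv (k P m D : ℕ) :
    (D : ℝ) / 4 - P ≤ ((range D).filter fun u => sm P (k * m + (k * u + 1))).card := by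
  have s0 := card_filter_add_card_filter_not (s := range D) (fun u => sm P (k * m + (k * u + 1)))
  rw [card_range] at s0
  have s1 : ((range D).filter fun u => ¬ sm P (k * m + (k * u + 1)))
      ⊆ ((Ioc 1 P).filter Nat.Prime).biUnion
        fun p => (range D).filter fun u => p * p ∣ k * u + (k * m + 1) := by
    intro u hu
    obtain ⟨h1, h2⟩ := mem_filter.1 hu
    unfold sm at h2
    push Not at h2
    obtain ⟨p, hp1, hp2, hp3⟩ := h2
    refine mem_biUnion.2 ⟨p, mem_filter.2 ⟨mem_Ioc.2 ⟨hp2.one_lt, hp1⟩, hp2⟩,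
      mem_filter.2 ⟨h1, ?_⟩⟩
    have e : k * u + (k * m + 1) = k * m + (k * u + 1) := by ring
    rwa [e]
  have s2 := (card_le_card s1).trans card_biUnion_le
  have s3 : ((((range D).filter fun u => ¬ sm P (k * m + (k * u + 1))).card : ℕ) : ℝ)
      ≤ ∑ p ∈ (Ioc 1 P).filter Nat.Prime,
        ((((range D).filter fun u => p * p ∣ k * u + (k * m + 1)).card : ℕ) : ℝ) := by
    exact_mod_cast s2
  have s4 : ∀ p ∈ (Ioc 1 P).filter Nat.Prime,
      ((((range D).filter fun u => p * p ∣ k * u + (k * m + 1)).card : ℕ) : ℝ)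
        ≤ D * ((p : ℝ) ^ 2)⁻¹ + 1 := by
    intro p hp
    obtain ⟨_, h2⟩ := mem_filter.1 hp
    by_cases hk : p ∣ k
    · rw [filter_false_of_mem, card_empty]
      · push_cast; positivity
      · intro u _ hd
        have d1 : p ∣ k * u + (k * m + 1) := (dvd_mul_right p p).trans hd
        have d2 : p ∣ k * m + 1 := (Nat.dvd_add_right (hk.mul_right u)).1 d1
        exact h2.one_lt.ne' (Nat.dvd_one.1 ((Nat.dvd_add_right (hk.mul_right m)).1 d2))
    · have hc : p.Coprime k := (Nat.Prime.coprime_iff_not_dvd h2).2 hk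
      have := count_lin k (k * m + 1) (p * p) D (mul_ne_zero h2.ne_zero h2.ne_zero)
        (Nat.Coprime.mul_left hc hc)
      push_cast at this
      rw [div_eq_mul_inv] at this
      rw [sq]
      exact this
  have s5 := s3.trans ((sum_le_sum s4).trans
    (sum_le_sum_of_subset_of_nonneg (filter_subset _ _) (fun _ _ _ => by positivity)))
  rw [sum_add_distrib, ← mul_sum] at s5
  have s6 : ∑ p ∈ Ioc 1 P, ((p : ℝ) ^ 2)⁻¹ ≤ 3 / 4 := by
    have t1 : Ioc 1 P ⊆ insert 2 (Ioc 2 (P + 2)) := by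
      intro x hx
      simp only [mem_Ioc, mem_insert] at hx ⊢
      omega
    refine (sum_le_sum_of_subset_of_nonneg t1 (fun _ _ _ => by positivity)).trans ?_
    rw [sum_insert (by simp)]
    have t2 := sum_Ioc_inv_sq_le_sub (α := ℝ) (k := 2) (n := P + 2) (by norm_num) (by omega)
    have t3 : (0 : ℝ) ≤ (((P + 2 : ℕ) : ℝ))⁻¹ := by positivity
    push_cast at t2 t3 ⊢
    norm_num at t2 ⊢
    linarith
  have s7 : ∑ p ∈ Ioc 1 P, (1 : ℝ) ≤ P := by
    simp only [sum_const, Nat.card_Ioc, nsmul_eq_mul, mul_one]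
    exact_mod_cast Nat.sub_le P 1
  have s8 := mul_le_mul_of_nonneg_left s6 (Nat.cast_nonneg (α := ℝ) D)
  have s9 : ((((range D).filter fun u => sm P (k * m + (k * u + 1))).card : ℕ) : ℝ)
      + (((range D).filter fun u => ¬ sm P (k * m + (k * u + 1))).card : ℕ) = D := by
    exact_mod_cast s0
  linarith

lemma c0_pos (α : ℂ) (h1 : ‖α‖ = 1) (hα : α ≠ 1) : 0 < 2 - ‖1 + α⁻¹‖ := by
  have p := parallelogram_law_with_norm ℝ (1 : ℂ) α⁻¹
  have n1 : ‖α⁻¹‖ = 1 := by rw [norm_inv, h1, inv_one]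
  have n2 : 0 < ‖1 - α⁻¹‖ := by
    rw [norm_pos_iff, sub_ne_zero]
    exact fun h => hα (inv_eq_one.1 h.symm)
  rw [n1, norm_one] at p
  have := norm_nonneg (1 + α⁻¹)
  by_contra h
  nlinarith

lemma corr (α β : ℂ) (h1 : ‖α‖ = 1) (h2 : ‖β‖ = 1) (hα : α ≠ 1) (k k' : ℕ) (hk' : 0 < k')
    (hk : k' < k) (J : ℕ) (ε : ℝ) (hε : 0 < ε) :
    ∃ d, ∀ t, 0 < t → t ≤ J → ∀ᶠ N : ℕ in Filter.atTop,
      ‖∑ n ∈ range N, GG (aa k k' (t * d)) (bb k k' (t * d)) (ww α β k k' (t * d)) n‖ ≤ N * ε := by
  obtain ⟨L, hL1, hL2, hL3⟩ := ((ev_lin (16 * k * J) (ε / 3) (by positivity)).and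
    ((Filter.eventually_ge_atTop (6 * (k * k * J))).and (Filter.eventually_ge_atTop 1))).exists
  have c0 := c0_pos α h1 hα
  set c := 2 - ‖1 + α⁻¹‖ with hc
  have c2 : c ≤ 2 := by have := norm_nonneg (1 + α⁻¹); linarith
  have LR : (1 : ℝ) ≤ L := by exact_mod_cast hL3
  have κ0 : 0 < c / (32 * L) := by positivity
  have κ1 : c / (32 * L) ≤ 1 := by rw [div_le_one (by positivity)]; linarith
  obtain ⟨r, hr⟩ := exists_pow_lt_of_lt_one (x := ε / 3) (y := 1 - c / (32 * L)) (by positivity)
    (by linarith)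
  obtain ⟨P, hP1, hP2⟩ := many_primes r (10 * L + k)
  refine ⟨P * P / L, fun t t0 tJ => ?_⟩
  set d := P * P / L with hd
  set D := t * d with hD
  have d1 : d * L ≤ P * P := Nat.div_mul_le_self _ _
  have d2 : P * P < d * L + L := by
    have := Nat.lt_div_mul_add (a := P * P) (b := L) (by omega)
    exact this
  have D1 : D ≤ J * d := Nat.mul_le_mul_right _ tJ
  have D2 : d ≤ D := Nat.le_mul_of_pos_left _ t0
  have D3 : 6 * (k * (k * D)) ≤ P * P := by
    calc 6 * (k * (k * D)) ≤ 6 * (k * (k * (J * d))) := by gcongr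
      _ = d * (6 * (k * k * J)) := by ring
      _ ≤ d * L := Nat.mul_le_mul_left _ hL2
      _ ≤ P * P := d1
  have D4 : k * D ≤ k * (k * D) := Nat.le_mul_of_pos_left _ (by omega)
  have D5 : k' * D ≤ k * D := Nat.mul_le_mul_right _ hk.le
  have cι : Fintype.card (Fin (k * D) ⊕ Fin (k' * D)) = k * D + k' * D := by simp
  have hw : ∀ x, ‖ww α β k k' D x‖ = 1 := by
    rintro (x | x)
    · exact h1
    · exact h2
  have ha : ∀ x, 0 < aa k k' D x ∧ aa k k' D x ≤ P := by
    rintro (x | x)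
    · simp only [aa, Sum.elim_inl]; omega
    · simp only [aa, Sum.elim_inr]; omega
  have hB : ∀ x, 0 < bb k k' D x ∧ bb k k' D x ≤ k * D := by
    rintro (x | x)
    · simp only [bb, Sum.elim_inl]; omega
    · simp only [bb, Sum.elim_inr]; omega
  set T : Finset (Fin (k * D) ⊕ Fin (k' * D)) :=
    univ.filter fun x => ∃ u : Fin (k * D), x = Sum.inl u ∧ k ∣ u with hT
  have hb : ∀ m p, p.Prime → P < p → p ≤ 2 * P →
      ‖∑ n ∈ range (p * p), psi (aa k k' D) (bb k k' D) (ww α β k k' D) P m p n‖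
        ≤ p * p * (1 - c / (32 * L)) := by
    intro m p hp p1 p2
    have key := psi_bound (aa k k' D) (bb k k' D) (ww α β k k' D) hw α hα T ?_ P m p hp p1 ha ?_
      (by rw [cι]; omega)
    · refine key.trans ?_
      have g1 : ((range D).filter fun u => sm P (k * m + (k * u + 1))).card
          ≤ (T.filter fun x => sm P (aa k k' D x * m + bb k k' D x)).card := by
        have hpos : 0 < k * D := by
          refine Nat.mul_pos (by omega) (lt_of_lt_of_le ?_ D2)
          by_contra h0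
          have : d = 0 := Nat.eq_zero_of_not_pos h0
          rw [this] at d2
          nlinarith
        refine card_le_card_of_injOn
          (fun u => if h : k * u < k * D then Sum.inl ⟨k * u, h⟩ else Sum.inl ⟨0, hpos⟩) ?_ ?_
        · intro u hu
          simp only [coe_filter, mem_range, Set.mem_setOf_eq] at hu
          have h : k * u < k * D := Nat.mul_lt_mul_of_pos_left hu.1 (by omega)
          simp only [dif_pos h, coe_filter, Set.mem_setOf_eq, hT, mem_filter, mem_univ, true_and]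
          exact ⟨⟨_, rfl, dvd_mul_right _ _⟩, hu.2⟩
        · intro u hu v hv huv
          simp only [coe_filter, mem_range, Set.mem_setOf_eq] at hu hv
          have h : k * u < k * D := Nat.mul_lt_mul_of_pos_left hu.1 (by omega)
          have h' : k * v < k * D := Nat.mul_lt_mul_of_pos_left hv.1 (by omega)
          simp only [dif_pos h, dif_pos h', Sum.inl.injEq, Fin.mk.injEq] at huv
          exact Nat.eq_of_mul_eq_mul_left (by omega) huv
      have g2 := surv k P m D
      set g := (T.filter fun x => sm P (aa k k' D x * m + bb k k' D x)).card with hg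
      have g3 : (D : ℝ) / 4 - P ≤ g := g2.trans (by exact_mod_cast g1)
      have r1 : (P : ℝ) * P ≤ d * L + L := by exact_mod_cast d2.le
      have r2 : (d : ℝ) ≤ D := by exact_mod_cast D2
      have r3 : (10 : ℝ) * L ≤ P := by exact_mod_cast (by omega : 10 * L ≤ P)
      have r4 : (p : ℝ) ≤ 2 * P := by exact_mod_cast p2
      have r5 : (p : ℝ) * p ≤ 4 * (P * P) := by
        have := mul_self_le_mul_self (Nat.cast_nonneg (α := ℝ) p) r4
        linarith
      have r6 : (p : ℝ) * p ≤ g * (32 * L) := by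
        have u1 : ((d : ℝ) / 4 - P) * (32 * L) ≤ g * (32 * L) :=
          mul_le_mul_of_nonneg_right (by linarith) (by positivity)
        have u2 : (10 : ℝ) * L * P ≤ P * P := mul_le_mul_of_nonneg_right r3 (Nat.cast_nonneg _)
        have u3 : (L : ℝ) * 1 ≤ L * P := mul_le_mul_of_nonneg_left (by linarith) (by linarith)
        nlinarith
      have r7 : (p : ℝ) * p * (c / (32 * L)) ≤ g * c := by
        calc (p : ℝ) * p * (c / (32 * L)) ≤ g * (32 * L) * (c / (32 * L)) :=
              mul_le_mul_of_nonneg_right r6 κ0.le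
          _ = g * c := by field_simp
      rw [← hc]
      linarith
    · intro x hx
      obtain ⟨u, rfl, _⟩ := (mem_filter.1 hx).2
      rfl
    · intro x hx z hz
      obtain ⟨u, rfl, hu⟩ := (mem_filter.1 hx).2
      have u1 : (u : ℤ) + 1 ≤ k * D := by exact_mod_cast u.2
      have kk : (k' : ℤ) ≤ k := by exact_mod_cast hk.le
      have k0 : (0 : ℤ) < k' := by exact_mod_cast hk'
      have D6 : (k : ℤ) * (k * D) ≤ P * P := by exact_mod_cast (by omega : k * (k * D) ≤ P * P)
      have u0 : (0 : ℤ) ≤ (u : ℕ) := Nat.cast_nonneg _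
      rcases z with z | z
      · simp only [aa, bb, Sum.elim_inl]
        have z1 : (z : ℤ) + 1 ≤ k * D := by exact_mod_cast z.2
        have z0 : (0 : ℤ) ≤ (z : ℕ) := Nat.cast_nonneg _
        push_cast
        refine ⟨fun h => hz ?_, abs_le.2 ⟨by nlinarith, by nlinarith⟩⟩
        have e1 : (k : ℤ) * ((u : ℕ) - (z : ℕ)) = 0 := by linarith
        rcases mul_eq_zero.1 e1 with e | e
        · omega
        · have : (z : ℕ) = u := by omega
          rw [Fin.ext this]
      · simp only [aa, bb, Sum.elim_inl, Sum.elim_inr]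
        have z1 : (z : ℤ) + 1 ≤ k * D := by exact_mod_cast (by have := z.2; omega : (z : ℕ) + 1 ≤ k * D)
        have z0 : (0 : ℤ) ≤ (z : ℕ) := Nat.cast_nonneg _
        push_cast
        refine ⟨fun h => ?_, abs_le.2 ⟨by nlinarith, by nlinarith⟩⟩
        have e1 : k' * ((u : ℕ) + 1) = k * ((z : ℕ) + 1) := by
          have : (k' : ℤ) * ((u : ℕ) + 1) = k * ((z : ℕ) + 1) := by linarith
          exact_mod_cast this
        have e2 : k ∣ k' * u + k' := by
          rw [← mul_add_one, e1]; exact dvd_mul_right _ _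
        have e3 : k ∣ k' := (Nat.dvd_add_right (hu.mul_left k')).1 e2
        exact absurd (Nat.le_of_dvd hk' e3) (by omega)
  filter_upwards [core_ev (aa k k' D) (bb k k' D) (ww α β k k' D) hw P r (k * D) ha hB
    (1 - c / (32 * L)) (by linarith) (by linarith) hP2 hb (ε / 3) (by positivity)] with N hN
  refine hN.trans (mul_le_mul_of_nonneg_left ?_ (Nat.cast_nonneg _))
  have f1 : 2 * (Fintype.card (Fin (k * D) ⊕ Fin (k' * D)) : ℝ) * (2 / (P + 1)) ^ 2 ≤ ε / 3 := by
    have f2 : Fintype.card (Fin (k * D) ⊕ Fin (k' * D)) * L ≤ 2 * k * J * (P * P) := by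
      rw [cι]
      calc (k * D + k' * D) * L ≤ (2 * (k * (J * d))) * L := by
            refine Nat.mul_le_mul_right _ ?_
            have : k * D ≤ k * (J * d) := Nat.mul_le_mul_left _ D1
            omega
        _ = 2 * k * J * (d * L) := by ring
        _ ≤ _ := Nat.mul_le_mul_left _ d1
    have f3 : (Fintype.card (Fin (k * D) ⊕ Fin (k' * D)) : ℝ) * L ≤ 2 * k * J * (P * P) := by
      exact_mod_cast f2
    set X : ℝ := (Fintype.card (Fin (k * D) ⊕ Fin (k' * D)) : ℝ) with hX
    have P0 : (0 : ℝ) ≤ P := Nat.cast_nonneg _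
    rw [div_pow, ← mul_div_assoc, div_le_iff₀ (by positivity)]
    have f4 : 8 * X * L ≤ (L * (ε / 3)) * (P * P) := by
      have := mul_le_mul_of_nonneg_right hL1 (mul_nonneg P0 P0)
      linarith
    have f5 : 8 * X ≤ (ε / 3) * (P * P) := by
      refine le_of_mul_le_mul_right ?_ (by linarith : (0 : ℝ) < L)
      linarith
    have f6 : (ε / 3) * (P * P) ≤ (ε / 3) * (P + 1) ^ 2 :=
      mul_le_mul_of_nonneg_left (by nlinarith) (by positivity)
    linarith
  linarith

end Pool.Agent.Lib.MP_2f350e_nt
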