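import Pool.Agent.Lib.MP_2f350e_nt.Corr

/-! Van der Corput step and second moment. -/

namespace Pool.Agent.Lib.MP_2f350e_nt

open Finset Classical ComplexConjugate

lemma quasi (K : Finset ℕ) (f : ℕ → ℕ → ℂ) (N : ℕ) (c E : ℝ) (hE0 : 0 ≤ E)
    (hc : ∀ i ∈ K, ∀ n, ‖f i n‖ ≤ c)
    (hE : ∀ i ∈ K, ∀ j ∈ K, j < i → ‖∑ n ∈ range N, f i n * conj (f j n)‖ ≤ E) :
    ∑ n ∈ range N, ‖∑ i ∈ K, f i n‖ ^ 2 ≤ K.card * (N * c ^ 2) + K.card ^ 2 * E := by
  have e1 : ((∑ n ∈ range N, ‖∑ i ∈ K, f i n‖ ^ 2 : ℝ) : ℂ)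
      = ∑ i ∈ K, ∑ j ∈ K, ∑ n ∈ range N, f i n * conj (f j n) := by
    push_cast
    have : ∀ n, ((‖∑ i ∈ K, f i n‖ : ℝ) : ℂ) ^ 2 = ∑ i ∈ K, ∑ j ∈ K, f i n * conj (f j n) := by
      intro n
      rw [← Complex.mul_conj', map_sum, sum_mul_sum]
    simp only [this]
    rw [sum_comm]
    exact sum_congr rfl (fun i _ => sum_comm)
  have e2 : ∑ n ∈ range N, ‖∑ i ∈ K, f i n‖ ^ 2
      ≤ ‖∑ i ∈ K, ∑ j ∈ K, ∑ n ∈ range N, f i n * conj (f j n)‖ := by
    rw [← e1, Complex.norm_real]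
    exact le_abs_self _
  refine e2.trans ((norm_sum_le _ _).trans ?_)
  have e3 : ∀ i ∈ K, ‖∑ j ∈ K, ∑ n ∈ range N, f i n * conj (f j n)‖ ≤ N * c ^ 2 + K.card * E := by
    intro i hi
    refine (norm_sum_le _ _).trans ?_
    have e4 : ∀ j ∈ K, ‖∑ n ∈ range N, f i n * conj (f j n)‖
        ≤ (if j = i then N * c ^ 2 else 0) + E := by
      intro j hj
      rcases lt_trichotomy j i with h | h | h
      · rw [if_neg h.ne, zero_add]; exact hE i hi j hj h
      · subst h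
        rw [if_pos rfl]
        refine (norm_sum_le _ _).trans ?_
        have : ∀ n ∈ range N, ‖f j n * conj (f j n)‖ ≤ c ^ 2 := fun n _ => by
          rw [norm_mul, Complex.norm_conj, sq]
          exact mul_self_le_mul_self (norm_nonneg _) (hc j hj n)
        refine (sum_le_sum this).trans ?_
        simp only [sum_const, card_range, nsmul_eq_mul]
        linarith
      · rw [if_neg h.ne', zero_add, ← Complex.norm_conj, map_sum]
        have := hE j hj i hi h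
        simpa only [map_mul, Complex.conj_conj, mul_comm] using this
    refine (sum_le_sum e4).trans ?_
    rw [sum_add_distrib, sum_ite_eq' K i, if_pos hi]
    simp
  refine (sum_le_sum e3).trans ?_
  simp only [sum_const, nsmul_eq_mul]
  nlinarith

lemma shift (f : ℕ → ℂ) (h1 : ∀ n, ‖f n‖ ≤ 1) (s N : ℕ) :
    ‖∑ n ∈ range N, f (n + s) - ∑ n ∈ range N, f n‖ ≤ 2 * s := by
  have e1 := sum_range_add f N s
  have e2 := sum_range_add f s N
  rw [add_comm s N] at e2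
  have e3 : ∑ n ∈ range N, f (n + s) - ∑ n ∈ range N, f n
      = ∑ x ∈ range s, f (N + x) - ∑ x ∈ range s, f x := by
    have : ∑ n ∈ range N, f (n + s) = ∑ n ∈ range N, f (s + n) := by simp only [add_comm]
    rw [this]
    linear_combination e1 - e2
  rw [e3]
  refine (norm_sub_le _ _).trans ?_
  have b : ∀ g : ℕ → ℂ, (∀ n, ‖g n‖ ≤ 1) → ‖∑ x ∈ range s, g x‖ ≤ s := fun g hg => by
    refine (norm_sum_le _ _).trans ((sum_le_sum (fun x _ => hg x)).trans ?_)
    simp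
  have b1 := b (fun x => f (N + x)) (fun _ => h1 _)
  have b2 := b f h1
  linarith

lemma vdc (F : ℕ → ℂ) (G : ℕ → ℕ → ℂ) (hF : ∀ n, ‖F n‖ = 1) (hG : ∀ D n, ‖G D n‖ ≤ 1)
    (hFG : ∀ D n, F (n + D) = F n * G D n)
    (H : ∀ J : ℕ, ∀ ε : ℝ, 0 < ε → ∃ d, ∀ t, 0 < t → t ≤ J → ∀ᶠ N : ℕ in Filter.atTop,
      ‖∑ n ∈ range N, G (t * d) n‖ ≤ N * ε) (ε : ℝ) (hε : 0 < ε) :
    ∀ᶠ N : ℕ in Filter.atTop, ‖∑ n ∈ range N, F n‖ ≤ N * ε := by
  obtain ⟨J, hJ1, hJ2⟩ := ((ev_lin 1 (ε ^ 2 / 12) (by positivity)).and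
    (Filter.eventually_ge_atTop 1)).exists
  obtain ⟨d, hd⟩ := H J (ε ^ 2 / 12) (by positivity)
  have hall : ∀ᶠ N : ℕ in Filter.atTop, ∀ t ∈ Ioc 0 J,
      ‖∑ n ∈ range N, G (t * d) n‖ ≤ N * (ε ^ 2 / 12) :=
    (Filter.eventually_all_finset _).2 (fun t ht => hd t (mem_Ioc.1 ht).1 (mem_Ioc.1 ht).2)
  filter_upwards [hall, ev_lin (2 * (J * d)) (ε ^ 2 / 12) (by positivity),
    ev_lin (2 * (J * d)) (ε / 2) (by positivity)] with N h1 h2 h3
  have N0 : (0 : ℝ) ≤ N := Nat.cast_nonneg _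
  have J0 : (0 : ℝ) < J := by exact_mod_cast hJ2
  have jd : ∀ j ∈ range J, ((j * d : ℕ) : ℝ) ≤ J * d := fun j hj => by
    exact_mod_cast Nat.mul_le_mul_right d (mem_range.1 hj).le
  have q := quasi (range J) (fun j n => F (n + j * d)) N 1 (N * (ε ^ 2 / 6)) (by positivity)
    (fun i _ n => (hF _).le) (by
      intro i hi j hj hji
      have e : ∀ n, F (n + i * d) * conj (F (n + j * d)) = G ((i - j) * d) (n + j * d) := by
        intro n
        have e1 : n + i * d = (n + j * d) + (i - j) * d := by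
          rw [add_assoc, ← add_mul]; congr 2; omega
        rw [e1, hFG, mul_right_comm, Complex.mul_conj', hF]
        simp
      simp only [e]
      have s1 := shift (G ((i - j) * d)) (hG _) (j * d) N
      have s2 := h1 (i - j) (mem_Ioc.2 ⟨by omega, by have := mem_range.1 hi; omega⟩)
      have s3 := norm_le_norm_add_norm_sub' (∑ n ∈ range N, G ((i - j) * d) (n + j * d))
        (∑ n ∈ range N, G ((i - j) * d) n)
      have s4 := jd j hj
      linarith)
  rw [card_range] at q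
  have cs := sq_sum_le_card_mul_sum_sq (s := range N)
    (f := fun n => ‖∑ j ∈ range J, F (n + j * d)‖)
  rw [card_range] at cs
  have b1 : ∑ n ∈ range N, ‖∑ j ∈ range J, F (n + j * d)‖ ≤ J * (N * (ε / 2)) := by
    refine le_of_sq_le_sq ?_ (by positivity)
    refine cs.trans ((mul_le_mul_of_nonneg_left q N0).trans ?_)
    have u1 : (J : ℝ) * 1 ≤ J * (J * (ε ^ 2 / 12)) := mul_le_mul_of_nonneg_left hJ1 J0.le
    have u2 := mul_le_mul_of_nonneg_left u1 (mul_nonneg N0 N0)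
    nlinarith
  have b2 : (J : ℂ) * ∑ n ∈ range N, F n = ∑ n ∈ range N, ∑ j ∈ range J, F (n + j * d)
      - ∑ j ∈ range J, (∑ n ∈ range N, F (n + j * d) - ∑ n ∈ range N, F n) := by
    rw [sum_sub_distrib, sum_comm]
    simp
  have b3 : ‖∑ j ∈ range J, (∑ n ∈ range N, F (n + j * d) - ∑ n ∈ range N, F n)‖
      ≤ J * (N * (ε / 2)) := by
    refine (norm_sum_le _ _).trans ?_
    have : ∀ j ∈ range J, ‖∑ n ∈ range N, F (n + j * d) - ∑ n ∈ range N, F n‖ ≤ N * (ε / 2) :=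
      fun j hj => by
        have s1 := shift F (fun n => (hF n).le) (j * d) N
        have s4 := jd j hj
        linarith
    refine (sum_le_sum this).trans ?_
    simp
  have b4 : (J : ℝ) * ‖∑ n ∈ range N, F n‖ ≤ J * (N * ε) := by
    have := norm_mul (J : ℂ) (∑ n ∈ range N, F n)
    rw [Complex.norm_natCast] at this
    rw [← this, b2]
    refine (norm_sub_le _ _).trans ?_
    have := norm_sum_le (range N) (fun n => ∑ j ∈ range J, F (n + j * d))
    linarith
  exact le_of_mul_le_mul_left b4 J0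

lemma mixing (α β : ℂ) (h1 : ‖α‖ = 1) (h2 : ‖β‖ = 1) (hα : α ≠ 1) (k k' : ℕ) (hk' : 0 < k')
    (hk : k' < k) (ε : ℝ) (hε : 0 < ε) :
    ∀ᶠ N : ℕ in Filter.atTop, ‖∑ n ∈ range N, FF α β k k' n‖ ≤ N * ε := by
  refine vdc (FF α β k k') (fun D n => GG (aa k k' D) (bb k k' D) (ww α β k k' D) n) ?_ ?_
    (fun D n => FF_add α β k k' D n) (fun J e he => corr α β h1 h2 hα k k' hk' hk J e he) ε hε
  · intro n
    simp [FF, h1, h2]
  · intro D n
    refine (norm_GG _ _ _ ?_ n).le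
    rintro (x | x)
    · exact h1
    · exact h2

lemma bad_small (W a : ℕ) (hW : 0 < W) (ε : ℝ) (hε : 0 < ε) :
    ∀ᶠ N : ℕ in Filter.atTop, ((((range N).filter fun n => ¬ ∃ p, p.Prime ∧ Odd p ∧ p < 2 * n ∧
      QQ ((p - 1) / 2 * n) ≡ a [MOD W]).card : ℕ) : ℝ) ≤ N * ε := by
  obtain ⟨r, hr1, hr2⟩ := ((ev_lin (W ^ 2) (ε / 3) (by positivity)).and
    (Filter.eventually_ge_atTop 1)).exists
  obtain ⟨P, hP1, hP2⟩ := many_primes r 2
  set S := (Ioc P (2 * P)).filter Nat.Prime with hS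
  set ζ := Complex.exp (2 * Real.pi * Complex.I / W) with hζ
  have prim : IsPrimitiveRoot ζ W := Complex.isPrimitiveRoot_exp W hW.ne'
  have nζ : ‖ζ‖ = 1 := prim.norm'_eq_one hW.ne'
  have WR : (0 : ℝ) < W := by exact_mod_cast hW
  have hodd : ∀ p ∈ S, Odd p ∧ 3 ≤ p := fun p hp => by
    have := (mem_Ioc.1 (mem_filter.1 hp).1).1
    exact ⟨(mem_filter.1 hp).2.odd_of_ne_two (by omega), by omega⟩
  set g : ℕ → ℕ → ℂ := fun p n =>
    ∑ b ∈ Ico 1 W, (ζ ^ b) ^ ((W - 1) * a) * (ζ ^ b) ^ QQ ((p - 1) / 2 * n) with hg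
  have hall : ∀ᶠ N : ℕ in Filter.atTop, ∀ p ∈ S, ∀ q ∈ S, ∀ b ∈ Ico 1 W, ∀ c ∈ Ico 1 W, q < p →
      ‖∑ n ∈ range N, FF (ζ ^ b) (conj (ζ ^ c)) ((p - 1) / 2) ((q - 1) / 2) n‖
        ≤ N * (ε / 3 / W ^ 2) := by
    simp only [Filter.eventually_all_finset]
    intro p hp q hq b hb c _
    by_cases hqp : q < p
    · obtain ⟨⟨x, hx⟩, x3⟩ := hodd p hp
      obtain ⟨⟨y, hy⟩, y3⟩ := hodd q hq
      have := mixing (ζ ^ b) (conj (ζ ^ c)) (by simp [nζ]) (by simp [nζ])
        (prim.pow_ne_one_of_pos_of_lt (by have := (mem_Ico.1 hb).1; omega) (mem_Ico.1 hb).2)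
        ((p - 1) / 2) ((q - 1) / 2) (by omega) (by omega) (ε / 3 / W ^ 2) (by positivity)
      exact this.mono (fun N h _ => h)
    · exact Filter.Eventually.of_forall (fun N h => absurd h hqp)
  filter_upwards [hall, ev_lin (P + 1) (ε / 3) (by positivity)] with N h1 h2
  have N0 : (0 : ℝ) ≤ N := Nat.cast_nonneg _
  have cW : ((Ico 1 W).card : ℝ) ≤ W := by
    rw [Nat.card_Ico]; exact_mod_cast Nat.sub_le W 1
  have q := quasi S g N W (N * (ε / 3)) (by positivity) (by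
      intro p _ n
      refine (norm_sum_le _ _).trans ?_
      simpa [nζ] using cW) (by
      intro p hp q hq hqp
      have e : ∑ n ∈ range N, g p n * conj (g q n) = ∑ b ∈ Ico 1 W, ∑ c ∈ Ico 1 W,
          ((ζ ^ b) ^ ((W - 1) * a) * conj ((ζ ^ c) ^ ((W - 1) * a))) *
            ∑ n ∈ range N, FF (ζ ^ b) (conj (ζ ^ c)) ((p - 1) / 2) ((q - 1) / 2) n := by
        have e0 : ∀ n, g p n * conj (g q n) = ∑ b ∈ Ico 1 W, ∑ c ∈ Ico 1 W,
            ((ζ ^ b) ^ ((W - 1) * a) * conj ((ζ ^ c) ^ ((W - 1) * a))) *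
              FF (ζ ^ b) (conj (ζ ^ c)) ((p - 1) / 2) ((q - 1) / 2) n := by
          intro n
          simp only [hg]
          rw [map_sum, sum_mul_sum]
          refine sum_congr rfl (fun b _ => sum_congr rfl (fun c _ => ?_))
          simp only [FF, map_mul, map_pow]
          ring
        simp only [e0]
        rw [sum_comm]
        refine sum_congr rfl (fun b _ => ?_)
        rw [sum_comm]
        exact sum_congr rfl (fun c _ => (mul_sum _ _ _).symm)
      rw [e]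
      refine (norm_sum_le _ _).trans ?_
      have e2 : ∀ b ∈ Ico 1 W, ‖∑ c ∈ Ico 1 W,
          ((ζ ^ b) ^ ((W - 1) * a) * conj ((ζ ^ c) ^ ((W - 1) * a))) *
            ∑ n ∈ range N, FF (ζ ^ b) (conj (ζ ^ c)) ((p - 1) / 2) ((q - 1) / 2) n‖
            ≤ W * (N * (ε / 3 / W ^ 2)) := by
        intro b hb
        refine (norm_sum_le _ _).trans ?_
        have e3 : ∀ c ∈ Ico 1 W, ‖((ζ ^ b) ^ ((W - 1) * a) * conj ((ζ ^ c) ^ ((W - 1) * a))) *
            ∑ n ∈ range N, FF (ζ ^ b) (conj (ζ ^ c)) ((p - 1) / 2) ((q - 1) / 2) n‖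
            ≤ N * (ε / 3 / W ^ 2) := by
          intro c hc
          have := h1 p hp q hq b hb c hc hqp
          rw [norm_mul, norm_mul, Complex.norm_conj]
          simpa only [norm_pow, nζ, one_pow, one_mul] using this
        refine (sum_le_sum e3).trans ?_
        rw [sum_const, nsmul_eq_mul]
        exact mul_le_mul_of_nonneg_right cW (by positivity)
      refine (sum_le_sum e2).trans ?_
      rw [sum_const, nsmul_eq_mul]
      refine (mul_le_mul_of_nonneg_right cW (by positivity)).trans (le_of_eq ?_)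
      field_simp)
  set Bd := (range N).filter fun n => ∀ p ∈ S, ¬ QQ ((p - 1) / 2 * n) ≡ a [MOD W] with hBd
  have v1 : ∀ n ∈ Bd, ‖∑ p ∈ S, g p n‖ ^ 2 = (S.card : ℝ) ^ 2 := by
    intro n hn
    have : ∀ p ∈ S, g p n = -1 := by
      intro p hp
      have hne := (mem_filter.1 hn).2 p hp
      set η := ζ ^ ((W - 1) * a + QQ ((p - 1) / 2 * n)) with hη
      have t1 : η ^ W = 1 := by rw [hη, ← pow_mul, mul_comm, pow_mul, prim.pow_eq_one, one_pow]
      have t2 : η ≠ 1 := by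
        intro h
        apply hne
        have t3 := (Nat.modEq_zero_iff_dvd).2 ((prim.pow_eq_one_iff_dvd _).1 h)
        have t4 := t3.add_left a
        have t5 : a + ((W - 1) * a + QQ ((p - 1) / 2 * n)) = QQ ((p - 1) / 2 * n) + W * a := by
          obtain ⟨V, rfl⟩ : ∃ V, W = V + 1 := ⟨W - 1, by omega⟩
          simp only [Nat.add_sub_cancel]; ring
        rw [t5, add_zero] at t4
        exact (Nat.ModEq.symm (by simp [Nat.ModEq])).trans t4
      have t6 : ∑ b ∈ range W, η ^ b = 0 := by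
        have := mul_geom_sum η W
        rw [t1, sub_self] at this
        exact (mul_eq_zero.1 this).resolve_left (sub_ne_zero.2 t2)
      have t7 : g p n = ∑ b ∈ Ico 1 W, η ^ b := by
        refine sum_congr rfl (fun b _ => ?_)
        rw [hη]; ring
      rw [range_eq_Ico, sum_eq_sum_Ico_succ_bot hW] at t6
      rw [t7]
      simp only [pow_zero, zero_add] at t6
      linear_combination t6
    rw [sum_congr rfl this]
    simp
  have v2 : (Bd.card : ℝ) * (S.card : ℝ) ^ 2 ≤ S.card * (N * W ^ 2) + S.card ^ 2 * (N * (ε / 3)) := by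
    refine le_trans ?_ q
    rw [← nsmul_eq_mul, ← sum_const, ← sum_congr rfl v1]
    exact sum_le_sum_of_subset_of_nonneg (filter_subset _ _) (fun _ _ _ => by positivity)
  have s1 : (r : ℝ) ≤ S.card := by exact_mod_cast hP2
  have r1 : (1 : ℝ) ≤ r := by exact_mod_cast hr2
  have v3 : (Bd.card : ℝ) ≤ N * (ε / 3) + N * (ε / 3) := by
    refine le_of_mul_le_mul_right (v2.trans ?_) (pow_pos (by linarith : (0 : ℝ) < S.card) 2)
    have u1 : (W : ℝ) ^ 2 ≤ S.card * (ε / 3) :=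
      hr1.trans (mul_le_mul_of_nonneg_right s1 (by positivity))
    have u2 := mul_le_mul_of_nonneg_left u1 (mul_nonneg N0 (by linarith : (0 : ℝ) ≤ S.card))
    nlinarith
  have v4 : ((range N).filter fun n => ¬ ∃ p, p.Prime ∧ Odd p ∧ p < 2 * n ∧
      QQ ((p - 1) / 2 * n) ≡ a [MOD W]) ⊆ Bd ∪ range (P + 1) := by
    intro n hn
    obtain ⟨n1, n2⟩ := mem_filter.1 hn
    by_cases hnP : n < P + 1
    · exact mem_union_right _ (mem_range.2 hnP)
    · refine mem_union_left _ (mem_filter.2 ⟨n1, fun p hp h => n2 ⟨p, (mem_filter.1 hp).2,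
        (hodd p hp).1, ?_, h⟩⟩)
      have := (mem_Ioc.1 (mem_filter.1 hp).1).2
      omega
  have v5 := (card_le_card v4).trans (card_union_le _ _)
  rw [card_range] at v5
  have v6 : ((((range N).filter fun n => ¬ ∃ p, p.Prime ∧ Odd p ∧ p < 2 * n ∧
      QQ ((p - 1) / 2 * n) ≡ a [MOD W]).card : ℕ) : ℝ) ≤ Bd.card + (P + 1) := by exact_mod_cast v5
  linarith

end Pool.Agent.Lib.MP_2f350e_nt
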